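import Pool.Agent.T6.H52.TP.Problem
import Pool.Agent.T6.H52.TP.All

/-!
# MP_8dfb46_an, Q1: disproof

There are a convex domain `D` in the plane and a non-convex domain `Ω` containing its closure
such that `(D, Ω)` solves the two-phase overdetermined problem.
-/

namespace Pool.Agent.Results.MP_8dfb46_an.ConvexCoreNonconvexOuter

open Pool.Agent.T6.H52.TP

/-- The answer to Q1 is negative: it is not true that for every `N ≥ 2`, `σc ∈ (0,∞) \ {1}`,
every convex domain `D` and every `V₀ > |D|` all solutions of the outer problem are convex. -/
theorem result : ¬ Q1 := notQ1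

end Pool.Agent.Results.MP_8dfb46_an.ConvexCoreNonconvexOuter
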